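import Pool.Agent.Helper68.SK.Goals

/-!
PROJECT SK (MP_2b0227_gt), packet NAT (helper85).
-/

namespace Pool.Agent.Helper85.SK

open Finset Pool.Agent.Helper52.C2 Pool.Agent.Helper68.SK LaurentPolynomial

theorem push_add {D D' : Type} [Fintype D] [DecidableEq D'] (f : D → D') (z w : D → ℤ) :
    push f (z + w) = push f z + push f w := by
  funext b
  simp only [push, Pi.add_apply]
  rw [← Finset.sum_add_distrib]
  refine Finset.sum_congr rfl fun a _ => ?_
  split <;> simp

theorem push_delta {D D' : Type} [Fintype D] [DecidableEq D] [DecidableEq D'] (f : D → D')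
    (a : D) : push f (δ a) = δ (f a) := by
  funext b
  simp only [push, δ]
  rw [Finset.sum_eq_single a]
  · by_cases h : f a = b
    · subst h
      simp
    · rw [if_neg h, Pi.single_eq_of_ne (Ne.symm h)]
  · intro x _ hx
    rw [Pi.single_eq_of_ne hx]
    simp
  · intro h
    exact absurd (Finset.mem_univ a) h

section basic

variable {V E : Type} [Fintype V] [DecidableEq V] [Fintype E] [DecidableEq E]

theorem mass_add (g : E → V × V) (z : V ⊕ E → ℤ) (U : Finset V) (a : V ⊕ E) :
    mass g (z + δ a) U = mass g z U + if hit g U a then 1 else 0 := by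
  have h : ∀ b, (if hit g U b then (z + δ a) b else 0)
      = (if hit g U b then z b else 0) + (if hit g U b then δ a b else 0) := fun b => by
    split <;> simp
  unfold mass
  simp only [h]
  rw [Finset.sum_add_distrib]
  congr 1
  rw [Finset.sum_eq_single a]
  · simp [δ]
  · intro x _ hx
    unfold δ
    rw [Pi.single_eq_of_ne hx]
    simp
  · intro h
    exact absurd (Finset.mem_univ a) h

theorem tot_add (z : V ⊕ E → ℤ) (a : V ⊕ E) : ∑ b, (z + δ a) b = ∑ b, z b + 1 := by
  simp only [Pi.add_apply]
  rw [Finset.sum_add_distrib]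
  congr 1
  unfold δ
  rw [Finset.sum_pi_single']
  simp

/-- counts by refined bases -/
theorem cnt_eq {P : Type} [Fintype P] [DecidableEq P] (g : E → V × V) (c : V → P)
    (w : P ⊕ E → ℤ) (p q : V ⊕ E) :
    cnt g c (w + δ (col E c p) + δ (col E c q))
      = (Set.ncard {z : V ⊕ E → ℤ | push (col E c) z = w ∧ z + δ p + δ q ∈ JJ g} : ℝ) := by
  unfold cnt
  congr 1
  have h : {z : V ⊕ E → ℤ | z ∈ JJ g ∧ push (col E c) z = w + δ (col E c p) + δ (col E c q)}
      = (fun z => z + (δ p + δ q)) ''
        {z : V ⊕ E → ℤ | push (col E c) z = w ∧ z + δ p + δ q ∈ JJ g} := by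
    ext z
    constructor
    · rintro ⟨h1, h2⟩
      refine ⟨z - (δ p + δ q), ⟨?_, ?_⟩, by simp⟩
      · have e : z = (z - (δ p + δ q)) + (δ p + δ q) := by simp
        rw [e, push_add, push_add, push_delta, push_delta, ← add_assoc] at h2
        exact add_right_cancel (add_right_cancel h2)
      · have e : z - (δ p + δ q) + δ p + δ q = z := by
          rw [add_assoc]
          simp
        rw [e]
        exact h1
    · rintro ⟨z', ⟨h1, h2⟩, rfl⟩
      refine ⟨?_, ?_⟩
      · change z' + (δ p + δ q) ∈ JJ g
        rw [← add_assoc]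
        exact h2
      · change push (col E c) (z' + (δ p + δ q)) = _
        rw [push_add, push_add, push_delta, push_delta, h1, add_assoc]
  rw [h]
  exact Set.ncard_image_of_injective _ (add_left_injective _)

/-- the inequality for the entry of a channel of size one -/
theorem key_ineq (hFin : GoalFin) (g : E → V × V) (c : V → Bool)
    (hc : ∀ e, c (g e).1 ≠ c (g e).2) (w : Bool ⊕ E → ℤ) (e : E) :
    cnt g c (w + δ (.inl true) + δ (.inr e)) + cnt g c (w + δ (.inl false) + δ (.inr e))
      ≤ cnt g c (w + δ (.inl true) + δ (.inl false)) + cnt g c (w + δ (.inr e) + δ (.inr e)) := by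
  obtain ⟨f1, f2, f3, f4⟩ := hFin V E Bool g c
  -- the ends
  obtain ⟨u, v, hu, hv, hrep, hhit⟩ : ∃ u v : V, c u = true ∧ c v = false ∧
      (∀ z : V ⊕ E → ℤ, z ∈ JJ g → z - δ (.inr e) + δ (.inl u) ∈ JJ g ∧
        z - δ (.inr e) + δ (.inl v) ∈ JJ g) ∧
      (∀ U : Finset V, hit g U (.inr e) ↔ u ∈ U ∨ v ∈ U) := by
    rcases h1 : c (g e).1 with _ | _
    · refine ⟨(g e).2, (g e).1, ?_, h1, fun z hz => ⟨(f4 z e hz).2, (f4 z e hz).1⟩, fun U => ?_⟩
      · have := hc e
        rw [h1] at this
        rcases h2 : c (g e).2 with _ | _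
        · exact absurd h2.symm this
        · rfl
      · exact or_comm
    · refine ⟨(g e).1, (g e).2, h1, ?_, fun z hz => f4 z e hz, fun U => Iff.rfl⟩
      have := hc e
      rw [h1] at this
      rcases h2 : c (g e).2 with _ | _
      · rfl
      · exact absurd h2.symm this
  have hcu : (Sum.inl true : Bool ⊕ E) = col E c (.inl u) := by simp [col, hu]
  have hcv : (Sum.inl false : Bool ⊕ E) = col E c (.inl v) := by simp [col, hv]
  have hce : (Sum.inr e : Bool ⊕ E) = col E c (.inr e) := by simp [col]
  set Xu := {z : V ⊕ E → ℤ | push (col E c) z = w ∧ z + δ (.inl u) + δ (.inr e) ∈ JJ g} with hXu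
  set Xv := {z : V ⊕ E → ℤ | push (col E c) z = w ∧ z + δ (.inl v) + δ (.inr e) ∈ JJ g} with hXv
  set Xuv := {z : V ⊕ E → ℤ | push (col E c) z = w ∧ z + δ (.inl u) + δ (.inl v) ∈ JJ g} with hXuv
  set Xe := {z : V ⊕ E → ℤ | push (col E c) z = w ∧ z + δ (.inr e) + δ (.inr e) ∈ JJ g} with hXe
  have e1 : cnt g c (w + δ (.inl true) + δ (.inr e)) = (Xu.ncard : ℝ) := by
    rw [hcu, hce]
    exact cnt_eq g c w _ _
  have e2 : cnt g c (w + δ (.inl false) + δ (.inr e)) = (Xv.ncard : ℝ) := by
    rw [hcv, hce]
    exact cnt_eq g c w _ _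
  have e3 : cnt g c (w + δ (.inl true) + δ (.inl false)) = (Xuv.ncard : ℝ) := by
    rw [hcu, hcv]
    exact cnt_eq g c w _ _
  have e4 : cnt g c (w + δ (.inr e) + δ (.inr e)) = (Xe.ncard : ℝ) := by
    rw [hce]
    exact cnt_eq g c w _ _
  have fin : ∀ p q : V ⊕ E, Set.Finite
      {z : V ⊕ E → ℤ | push (col E c) z = w ∧ z + δ p + δ q ∈ JJ g} := fun p q => by
    refine Set.Finite.of_finite_image (f := fun z => z + (δ p + δ q)) ?_
      (add_left_injective _).injOn
    refine (f1 (w + δ (col E c p) + δ (col E c q))).subset ?_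
    rintro _ ⟨z, ⟨h1, h2⟩, rfl⟩
    refine ⟨?_, ?_⟩
    · change z + (δ p + δ q) ∈ JJ g
      rw [← add_assoc]
      exact h2
    · change push (col E c) (z + (δ p + δ q)) = _
      rw [push_add, push_add, push_delta, push_delta, h1, add_assoc]
  have hsub1 : Xu ∪ Xv ⊆ Xuv := by
    rintro z (⟨h1, h2⟩ | ⟨h1, h2⟩)
    · refine ⟨h1, ?_⟩
      have := (hrep _ h2).2
      have e : z + δ (.inl u) + δ (.inr e) - δ (.inr e) + δ (.inl v)
          = z + δ (.inl u) + δ (.inl v) := by
        abel
      rwa [e] at this
    · refine ⟨h1, ?_⟩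
      have := (hrep _ h2).1
      have e : z + δ (.inl v) + δ (.inr e) - δ (.inr e) + δ (.inl u)
          = z + δ (.inl u) + δ (.inl v) := by
        abel
      rwa [e] at this
  have hsub2 : Xu ∩ Xv ⊆ Xe := by
    rintro z ⟨⟨h1, h2, h3⟩, ⟨_, h4, h5⟩⟩
    refine ⟨h1, ?_, fun U hU hU' => ?_⟩
    · rw [tot_add, tot_add] at h2 ⊢
      exact h2
    · have a1 := h3 U hU hU'
      have a2 := h5 U hU hU'
      rw [mass_add, mass_add] at a1 a2 ⊢
      by_cases hh : hit g U (.inr e)
      · rw [if_pos hh] at a1 a2 ⊢
        rcases (hhit U).1 hh with h | h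
        · rw [if_pos (show hit g U (.inl u) from h)] at a1
          linarith
        · rw [if_pos (show hit g U (.inl v) from h)] at a2
          linarith
      · rw [if_neg hh] at a1 a2 ⊢
        have : 0 ≤ (if hit g U (.inl u) then (1 : ℤ) else 0) := by split <;> norm_num
        linarith
  rw [e1, e2, e3, e4]
  have fu : Xu.Finite := fin _ _
  have fv : Xv.Finite := fin _ _
  have fuv : Xuv.Finite := fin _ _
  have fe : Xe.Finite := fin _ _
  have h1 := Set.ncard_union_add_ncard_inter Xu Xv fu fv
  have h2 := Set.ncard_le_ncard hsub1 fuv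
  have h3 := Set.ncard_le_ncard hsub2 fe
  have h4 : Xu.ncard + Xv.ncard ≤ Xuv.ncard + Xe.ncard := by omega
  exact_mod_cast h4

end basic

/-- the base -/
def bs {E : Type} [Fintype E] (k : ℤ) (n : E → ℤ) (i : ℤ) : Bool ⊕ E → ℤ
  | .inl true => i + k
  | .inl false => ∑ e, n e - 1 - (i + k)
  | .inr e => - n e

/-- directions -/
def dr {E : Type} : Dir E → Bool ⊕ E
  | .X => .inl true
  | .Y => .inl false
  | .V e => .inr e

theorem sum_single {E : Type} [Fintype E] [DecidableEq E] (m : E → ℤ) (e : E) :
    ∑ l, (m - Pi.single e 1 : E → ℤ) l = ∑ l, m l - 1 := by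
  simp only [Pi.sub_apply, Finset.sum_sub_distrib]
  rw [Finset.sum_pi_single']
  simp

section wts

variable {E : Type} [Fintype E] [DecidableEq E] (k : ℤ) (n : E → ℤ) (i : ℤ)

theorem wt_XX : wt k n (i + 2) = bs k n i + δ (.inl true) + δ (.inl true) := by
  funext a
  rcases a with (_ | _) | e
  · simp [wt, bs, δ]
    ring
  · simp [wt, bs, δ]
    ring
  · simp [wt, bs, δ]

theorem wt_XY : wt k n (i + 1) = bs k n i + δ (.inl true) + δ (.inl false) := by
  funext a
  rcases a with (_ | _) | e
  · simp [wt, bs, δ]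
    ring
  · simp [wt, bs, δ]
    ring
  · simp [wt, bs, δ]

theorem wt_YY : wt k n i = bs k n i + δ (.inl false) + δ (.inl false) := by
  funext a
  rcases a with (_ | _) | e
  · simp [wt, bs, δ]
    ring
  · simp [wt, bs, δ]
  · simp [wt, bs, δ]

theorem wt_XV (e : E) : wt k (n - Pi.single e 1) (i + 1)
    = bs k n i + δ (.inl true) + δ (.inr e) := by
  funext a
  rcases a with (_ | _) | e'
  · rw [wt, sum_single]
    simp [bs, δ]
    ring
  · simp [wt, bs, δ]
    ring
  · simp only [wt, bs, δ, Pi.add_apply, Pi.sub_apply]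
    by_cases h : e' = e
    · subst h
      simp
      ring
    · have h2 : (Sum.inr e' : Bool ⊕ E) ≠ Sum.inr e := fun h3 => h (Sum.inr_injective h3)
      rw [Pi.single_eq_of_ne h, Pi.single_eq_of_ne h2]
      simp

theorem wt_YV (e : E) : wt k (n - Pi.single e 1) i
    = bs k n i + δ (.inl false) + δ (.inr e) := by
  funext a
  rcases a with (_ | _) | e'
  · rw [wt, sum_single]
    simp [bs, δ]
    ring
  · simp [wt, bs, δ]
  · simp only [wt, bs, δ, Pi.add_apply, Pi.sub_apply]
    by_cases h : e' = e
    · subst h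
      simp
      ring
    · have h2 : (Sum.inr e' : Bool ⊕ E) ≠ Sum.inr e := fun h3 => h (Sum.inr_injective h3)
      rw [Pi.single_eq_of_ne h, Pi.single_eq_of_ne h2]
      simp

theorem wt_VV (e e₁ : E) : wt k (n - Pi.single e 1 - Pi.single e₁ 1) i
    = bs k n i + δ (.inr e) + δ (.inr e₁) := by
  funext a
  rcases a with (_ | _) | e'
  · rw [wt, sum_single, sum_single]
    simp [bs, δ]
    try ring
  · simp [wt, bs, δ]
  · simp only [wt, bs, δ, Pi.add_apply, Pi.sub_apply]
    have h1 : (Pi.single (Sum.inr e) 1 : Bool ⊕ E → ℤ) (.inr e') = (Pi.single e 1 : E → ℤ) e' := by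
      by_cases h : e' = e
      · subst h
        simp
      · have h2 : (Sum.inr e' : Bool ⊕ E) ≠ Sum.inr e := fun h3 => h (Sum.inr_injective h3)
        rw [Pi.single_eq_of_ne h, Pi.single_eq_of_ne h2]
    have h2 : (Pi.single (Sum.inr e₁) 1 : Bool ⊕ E → ℤ) (.inr e')
        = (Pi.single e₁ 1 : E → ℤ) e' := by
      by_cases h : e' = e₁
      · subst h
        simp
      · have h2 : (Sum.inr e' : Bool ⊕ E) ≠ Sum.inr e₁ := fun h3 => h (Sum.inr_injective h3)
        rw [Pi.single_eq_of_ne h, Pi.single_eq_of_ne h2]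
    rw [h1, h2]
    ring

end wts

theorem coeff_T_mul (m : ℤ) (f : ℝ[T;T⁻¹]) (i : ℤ) : (T m * f).coeff i = f.coeff (i - m) := by
  have h := AddMonoidAlgebra.coeff_single_mul_apply f (1 : ℝ) m i
  rw [one_mul, neg_add_eq_sub] at h
  exact h

theorem sNat : GoalNat := by
  intro hMain hFin hMap hMono V E _ _ _ _ g c hcs hc Φ hA k hΦ n i hn
  have hasg : ∀ m : E → ℤ, asg (fun _ => True) (fun _ => U 0) m = fun l => U (m l) := fun m => by
    funext l
    simp [asg]
  set w := bs k n i with hw
  have hm := hMain V E Bool g c hcs w (fun e => by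
    have := hn e
    change - n e ≤ 0
    omega)
  have h1 : OnePos (fun d => match d with | .V k => True ∧ 1 ≤ n k | _ => True)
      (fun a b => cw g c w (dr a) (dr b)) := by
    refine hMap (Bool ⊕ E) (Dir E) (al w) _ (cw g c w) _ dr hm ?_ (fun _ _ _ _ => rfl)
    rintro (_ | _ | e) h
    · trivial
    · trivial
    · change - n e ≤ -1
      have := h.2
      omega
  have comm : ∀ a b : Bool ⊕ E, w + δ a + δ b = w + δ b + δ a := fun a b => by abel
  -- nonnegative sizes
  have n1 : ∀ e, 1 ≤ n e → ∀ l, 0 ≤ (n - Pi.single e 1 : E → ℤ) l := by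
    intro e he l
    rw [Pi.sub_apply]
    by_cases h : l = e
    · subst h
      rw [Pi.single_eq_same]
      omega
    · rw [Pi.single_eq_of_ne h]
      have := hn l
      omega
  have n2 : ∀ e e', 1 ≤ n e → 1 ≤ n e' → (e = e' → 2 ≤ n e) →
      ∀ l, 0 ≤ (n - Pi.single e 1 - Pi.single e' 1 : E → ℤ) l := by
    intro e e' he he' hee l
    rw [Pi.sub_apply, Pi.sub_apply]
    have := hn l
    by_cases h : l = e
    · subst h
      by_cases h' : l = e'
      · subst h'
        have := hee rfl
        rw [Pi.single_eq_same]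
        omega
      · rw [Pi.single_eq_same, Pi.single_eq_of_ne h']
        omega
    · by_cases h' : l = e'
      · subst h'
        rw [Pi.single_eq_same, Pi.single_eq_of_ne h]
        omega
      · rw [Pi.single_eq_of_ne h, Pi.single_eq_of_ne h']
        omega
  have cXX : (Φ (fun l => U (n l))).coeff (i + 2) = cnt g c (w + δ (.inl true) + δ (.inl true)) := by
    rw [hΦ n hn, wt_XX]
  have cXY : (Φ (fun l => U (n l))).coeff (i + 1)
      = cnt g c (w + δ (.inl true) + δ (.inl false)) := by
    rw [hΦ n hn, wt_XY]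
  have cYY : (Φ (fun l => U (n l))).coeff i = cnt g c (w + δ (.inl false) + δ (.inl false)) := by
    rw [hΦ n hn, wt_YY]
  have cXV : ∀ e, 1 ≤ n e → (Φ (fun l => U ((n - Pi.single e 1 : E → ℤ) l))).coeff (i + 1)
      = cnt g c (w + δ (.inl true) + δ (.inr e)) := fun e he => by
    rw [hΦ _ (n1 e he), wt_XV]
  have cYV : ∀ e, 1 ≤ n e → (Φ (fun l => U ((n - Pi.single e 1 : E → ℤ) l))).coeff i
      = cnt g c (w + δ (.inl false) + δ (.inr e)) := fun e he => by
    rw [hΦ _ (n1 e he), wt_YV]
  have cVV : ∀ e e', 1 ≤ n e → 1 ≤ n e' → (e = e' → 2 ≤ n e) →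
      (Φ (fun l => U ((n - Pi.single e 1 - Pi.single e' 1 : E → ℤ) l))).coeff i
      = cnt g c (w + δ (.inr e) + δ (.inr e')) := fun e e' he he' hee => by
    rw [hΦ _ (n2 e e' he he' hee), wt_VV]
  refine hMono (Dir E) _ _ _ h1 ?_ ?_
  · rintro (_ | _ | e) (_ | _ | e') ha hb hab
    · exact absurd rfl hab
    · simp only [kwin, hasg, cw, dr]
      exact cXY
    · simp only [kwin, hasg, cw, dr]
      exact cXV e' hb.2
    · simp only [kwin, hasg, cw, dr]
      rw [comm]
      exact cXY
    · exact absurd rfl hab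
    · simp only [kwin, hasg, cw, dr]
      exact cYV e' hb.2
    · simp only [kwin, hasg, cw, dr]
      rw [comm]
      exact cXV e ha.2
    · simp only [kwin, hasg, cw, dr]
      rw [comm]
      exact cYV e ha.2
    · have hee : e ≠ e' := fun h => hab (by rw [h])
      simp only [kwin, hasg, cw, dr]
      rw [if_neg (fun h => hee h.1)]
      exact cVV e e' ha.2 hb.2 (fun h => absurd h hee)
  · rintro (_ | _ | e) ha
    · simp only [kwin, hasg, cw, dr]
      exact cXX.le
    · simp only [kwin, hasg, cw, dr]
      exact cYY.le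
    · have h1e : 1 ≤ n e := ha.2
      simp only [kwin, hasg, cw, dr]
      by_cases h : n e = 1
      · rw [if_pos (And.intro (by trivial) h)]
        refine max_le ?_ ((hFin V E Bool g c).2.1 _)
        set a : E → Tg := fun l => U (n l) with ha'
        have u1 : Function.update a e (U 1) = fun l => U (n l) := by
          funext l
          by_cases hl : l = e
          · subst hl
            rw [Function.update_self, h]
          · rw [Function.update_of_ne hl]
        have u0 : Function.update a e (U 0) = fun l => U ((n - Pi.single e 1 : E → ℤ) l) := by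
          funext l
          rw [Pi.sub_apply]
          by_cases hl : l = e
          · subst hl
            rw [Function.update_self, Pi.single_eq_same, h, sub_self]
          · rw [Function.update_of_ne hl, Pi.single_eq_of_ne hl, sub_zero]
        have um : Function.update a e (U (-1)) = fun l => U ((n - Pi.single e 2 : E → ℤ) l) := by
          funext l
          rw [Pi.sub_apply]
          by_cases hl : l = e
          · subst hl
            rw [Function.update_self, Pi.single_eq_same, h]
            norm_num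
          · rw [Function.update_of_ne hl, Pi.single_eq_of_ne hl, sub_zero]
        have hAe := hA a e (U (-1))
        have hR : (U (-1)).R = T (-1) := rfl
        have hF : (U (-1)).F = - T (-1) := by
          change geo (-1) = _
          unfold geo
          rw [if_neg (by norm_num)]
          simp
        rw [hR, hF] at hAe
        have hval : (Φ (Function.update a e (U (-1)))).coeff i
            = (Φ (Function.update a e (U 0))).coeff (i + 1)
              - (Φ (Function.update a e (U 1))).coeff (i + 1)
              + (Φ (Function.update a e (U 0))).coeff i := by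
          have e1 : Φ (Function.update a e (U (-1))) = T (-1) * Φ (Function.update a e (U 0))
              - T (-1) * Φ (Function.update a e (U 1)) + Φ (Function.update a e (U 0)) := by
            rw [hAe]
            have e2 : (T (-1) : ℝ[T;T⁻¹]) * T 1 = 1 := by
              rw [← T_add]
              norm_num
            linear_combination Φ (Function.update a e (U 0)) * e2
          rw [e1]
          have e3 : ∀ f g' : ℝ[T;T⁻¹], (f + g').coeff i = f.coeff i + g'.coeff i := fun _ _ => rfl
          have e4 : ∀ f g' : ℝ[T;T⁻¹], (f - g').coeff i = f.coeff i - g'.coeff i := fun _ _ => rfl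
          rw [e3, e4, coeff_T_mul, coeff_T_mul, sub_neg_eq_add]
        rw [← um, hval, u0, u1, cXV e h1e, cYV e h1e, cXY]
        have := key_ineq hFin g c hc w e
        linarith
      · rw [if_neg (fun h' => h h'.2)]
        exact (cVV e e h1e h1e (fun _ => by omega)).le

end Pool.Agent.Helper85.SK
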